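import Pool.Agent.H23.DZ.Targets

/-! Module F3: the bound to the left of the critical strip. -/

set_option autoImplicit false

open Complex

namespace Pool.Agent.H87.DZ

open Pool.Agent.H23.GLM Pool.Agent.H23.GLH Pool.Agent.H23.DZ

theorem leftStmt (hR : RatioUpperStmt) (hF : NormFEStmt) : LeftStmt := by
  intro m S hS A ε hε
  obtain ⟨B₀, hB₀⟩ := hS ε hε
  set B := max B₀ 1 with hBdef
  have hB1 : 1 ≤ B := le_max_right _ _
  set A' : ℝ := 1 / 2 + |A| with hA'
  have hA0 : 0 ≤ |A| := abs_nonneg A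
  obtain ⟨C₁, hC₁, hr⟩ := hR A'
  have h2A : (1:ℝ) ≤ 2 ^ A' := Real.one_le_rpow (by norm_num) (by rw [hA']; positivity)
  have hK1 : 1 ≤ (C₁ * 2 ^ A') ^ m :=
    one_le_pow₀ (one_le_mul_of_one_le_of_one_le hC₁ h2A)
  refine ⟨(C₁ * 2 ^ A') ^ m * B, one_le_mul_of_one_le_of_one_le hK1 hB1, ?_⟩
  rintro ⟨π, hπ⟩ s hs1 hs2
  show ‖π.L s‖ ≤ (C₁ * 2 ^ A') ^ m * B * π.X s.im ^ ε * π.Q s.im ^ (1 / 2 - s.re)
  set x : ℝ := 1 / 2 - s.re with hx
  set t : ℝ := s.im with ht
  have hx1 : 1 / 2 + ε ≤ x := by rw [hx]; linarith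
  have hx0 : 0 < x := by linarith
  have hxA : x ≤ A' := by
    rw [hx, hA']
    have := le_abs_self A
    linarith
  have hs : s = 1 / 2 - x + t * I := by
    apply Complex.ext
    · simp [hx]
    · simp [ht]
  have hfe := hF m π x t hx0 (Or.inl (by linarith))
  rw [← hs] at hfe
  rw [hfe]
  have hC := π.one_le_C
  have hCX := π.C_le_X t
  -- the value far to the right
  have hL : ‖π.L (1 / 2 + x + t * I)‖ ≤ B * π.X t ^ ε := by
    refine (hB₀ π hπ _ (by simp; linarith)).trans ?_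
    have h1 : B₀ ≤ B := le_max_left _ _
    have h2 : π.C ^ ε ≤ π.X t ^ ε := Real.rpow_le_rpow (by linarith) hCX hε.le
    have h3 : 0 ≤ π.C ^ ε := Real.rpow_nonneg (by linarith) _
    calc B₀ * π.C ^ ε ≤ B * π.C ^ ε := by gcongr
      _ ≤ B * π.X t ^ ε := by gcongr
  -- the product of the ratios
  have hprod : ∏ j, ‖ratio (1 / 2 + t * I - π.μ j) x‖ ≤
      (C₁ * 2 ^ A') ^ m * (∏ j, (1 + ‖t * I - π.μ j‖)) ^ x := by
    calc ∏ j, ‖ratio (1 / 2 + t * I - π.μ j) x‖
        ≤ ∏ j, ((C₁ * 2 ^ A') * (1 + ‖t * I - π.μ j‖) ^ x) := by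
          refine Finset.prod_le_prod (fun j _ => norm_nonneg _) fun j _ => ?_
          have hre := π.re_μ_lt j
          have hz : 0 ≤ (1 / 2 + t * I - π.μ j).re := by
            simp
            linarith
          refine (hr x _ hx0 hxA hz).trans ?_
          have h4 : 1 + ‖1 / 2 + t * I - π.μ j‖ ≤ 2 * (1 + ‖t * I - π.μ j‖) := by
            have h5 : ‖1 / 2 + t * I - π.μ j‖ ≤ 1 / 2 + ‖t * I - π.μ j‖ := by
              have h6 : (1 / 2 + t * I - π.μ j : ℂ) = 1 / 2 + (t * I - π.μ j) := by ring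
              rw [h6]
              refine (norm_add_le _ _).trans ?_
              simp
            have h7 := norm_nonneg (t * I - π.μ j)
            linarith
          have h8 : (1 + ‖1 / 2 + t * I - π.μ j‖) ^ x ≤ 2 ^ A' * (1 + ‖t * I - π.μ j‖) ^ x := by
            calc (1 + ‖1 / 2 + t * I - π.μ j‖) ^ x ≤ (2 * (1 + ‖t * I - π.μ j‖)) ^ x :=
                  Real.rpow_le_rpow (by positivity) h4 hx0.le
              _ = 2 ^ x * (1 + ‖t * I - π.μ j‖) ^ x :=
                  Real.mul_rpow (by norm_num) (by positivity)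
              _ ≤ 2 ^ A' * (1 + ‖t * I - π.μ j‖) ^ x := by
                  have : (2:ℝ) ^ x ≤ 2 ^ A' :=
                    Real.rpow_le_rpow_of_exponent_le (by norm_num) hxA
                  gcongr
          calc C₁ * (1 + ‖1 / 2 + t * I - π.μ j‖) ^ x
              ≤ C₁ * (2 ^ A' * (1 + ‖t * I - π.μ j‖) ^ x) := by gcongr
            _ = _ := by ring
      _ = _ := by
          rw [Finset.prod_mul_distrib, Finset.prod_const, Finset.card_univ, Fintype.card_fin,
            Real.finsetProd_rpow _ _ fun j _ => by positivity]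
  have hN := π.one_le_N
  have hQ : π.Q t ^ x = (π.N : ℝ) ^ x * (∏ j, (1 + ‖t * I - π.μ j‖)) ^ x := by
    rw [LData.Q, Real.mul_rpow (by positivity) (by positivity)]
  rw [hQ]
  have hX0 : 0 ≤ π.X t ^ ε := Real.rpow_nonneg (by linarith) _
  calc (π.N : ℝ) ^ x * (∏ j, ‖ratio (1 / 2 + t * I - π.μ j) x‖) * ‖π.L (1 / 2 + x + t * I)‖
      ≤ (π.N : ℝ) ^ x * ((C₁ * 2 ^ A') ^ m * (∏ j, (1 + ‖t * I - π.μ j‖)) ^ x) *
        (B * π.X t ^ ε) := by gcongr
    _ = _ := by ring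

end Pool.Agent.H87.DZ
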